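import Pool.Agent.H66.ZK.Stm

/-!
# Part NOD: the points of a singular plane cubic
-/

set_option autoImplicit false

open Pool.Agent.H66.TK Pool.Agent.H66.ZK

namespace Pool.Agent.H97.ZK

/-- the second order part of the cubic at `(w, x, y)` in the direction `(g, h, k)` -/
def QQ {F : Type} [Field F] (α : Fin 3 → F) (β : Fin 4 → F) (w x y g h k : F) : F :=
  3 * w * g ^ 2 + g * (2 * α 0 * x * h + α 1 * (x * k + y * h) + 2 * α 2 * y * k) +
    w * (α 0 * h ^ 2 + α 1 * (h * k) + α 2 * k ^ 2) +
    (3 * β 0 * x * h ^ 2 + β 1 * (2 * x * h * k + y * h ^ 2) + β 2 * (2 * y * h * k + x * k ^ 2) +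
      3 * β 3 * y * k ^ 2)

theorem cub_exp {F : Type} [Field F] (α : Fin 3 → F) (β : Fin 4 → F) (w x y g h k l m : F) :
    cub α β (l * w + m * g) ![l * x + m * h, l * y + m * k] =
      l ^ 3 * cub α β w ![x, y] + l ^ 2 * m * (cw α w ![x, y] * g + c0 α β w ![x, y] * h +
        c1 α β w ![x, y] * k) + l * m ^ 2 * QQ α β w x y g h k + m ^ 3 * cub α β g ![h, k] := by
  simp only [cub, q2, q3, cw, c0, c1, QQ, Matrix.cons_val_zero, Matrix.cons_val_one]
  ring

theorem vec_eta {F : Type} (x : Fin 2 → F) : x = ![x 0, x 1] := by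
  funext i
  fin_cases i <;> rfl

theorem nod : S_NOD := by
  intro F _ _ _ α β hline w₀ x₀ hx₀ hN hNw hN0 hN1 A _ κ f hκ w x hx hv
  rw [vec_eta x₀] at hN hNw hN0 hN1
  rw [vec_eta x] at hv
  obtain ⟨a, ha⟩ : ∃ a, a = x₀ 0 := ⟨_, rfl⟩
  obtain ⟨b, hb⟩ : ∃ b, b = x₀ 1 := ⟨_, rfl⟩
  have hab : a ≠ 0 ∨ b ≠ 0 := by
    by_contra h
    push Not at h
    apply hx₀
    rw [vec_eta x₀, ← ha, ← hb, h.1, h.2]
    funext i
    fin_cases i <;> rfl
  rw [← ha, ← hb] at hN hNw hN0 hN1
  obtain ⟨c, hc⟩ : ∃ c, c = x 0 := ⟨_, rfl⟩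
  obtain ⟨d, hd⟩ : ∃ d, d = x 1 := ⟨_, rfl⟩
  have hcd : c ≠ 0 ∨ d ≠ 0 := by
    by_contra h
    push Not at h
    apply hx
    rw [vec_eta x, ← hc, ← hd, h.1, h.2]
    funext i
    fin_cases i <;> rfl
  rw [← hc, ← hd] at hv
  rw [← hc, ← hd]
  have h3 : (3 : F) ≠ 0 := three_ne_zero
  -- the expansion at the singular point
  have hexp : ∀ g h k l m : F, cub α β (l * w₀ + m * g) ![l * a + m * h, l * b + m * k] =
      l * m ^ 2 * QQ α β w₀ a b g h k + m ^ 3 * cub α β g ![h, k] := by
    intro g h k l m
    rw [cub_exp, hN, hNw, hN0, hN1]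
    ring
  -- no line through the singular point
  have hnl : ∀ g h k : F, a * k - b * h ≠ 0 → QQ α β w₀ a b g h k = 0 → cub α β g ![h, k] ≠ 0 := by
    intro g h k hD hQ hc
    obtain ⟨z, hz⟩ := hline ((w₀ * k - g * b) / (a * k - b * h)) ((g * a - w₀ * h) / (a * k - b * h))
    apply hz
    have e := hexp g h k ((z 0 * k - z 1 * h) / (a * k - b * h))
      ((a * z 1 - b * z 0) / (a * k - b * h))
    rw [hQ, hc] at e
    have e1 : (z 0 * k - z 1 * h) / (a * k - b * h) * w₀ + (a * z 1 - b * z 0) / (a * k - b * h) * g =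
        (w₀ * k - g * b) / (a * k - b * h) * z 0 + (g * a - w₀ * h) / (a * k - b * h) * z 1 := by
      rw [div_mul_eq_mul_div, div_mul_eq_mul_div, div_mul_eq_mul_div, div_mul_eq_mul_div,
        ← add_div, ← add_div]
      congr 1
      ring
    have e2 : (z 0 * k - z 1 * h) / (a * k - b * h) * a + (a * z 1 - b * z 0) / (a * k - b * h) * h =
        z 0 := by
      rw [div_mul_eq_mul_div, div_mul_eq_mul_div, ← add_div, div_eq_iff hD]
      ring
    have e3 : (z 0 * k - z 1 * h) / (a * k - b * h) * b + (a * z 1 - b * z 0) / (a * k - b * h) * k =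
        z 1 := by
      rw [div_mul_eq_mul_div, div_mul_eq_mul_div, ← add_div, div_eq_iff hD]
      ring
    rw [e1, e2, e3, ← vec_eta z] at e
    rw [e]
    ring
  -- the class of the singular point
  have key1 : ∃ g h k : F, QQ α β w₀ a b g h k = 0 ∧ cub α β g ![h, k] ≠ 0 ∧
      (a * k - b * h ≠ 0 ∨ (h = 0 ∧ k = 0 ∧ g ≠ 0)) := by
    by_cases hw : w₀ = 0
    · refine ⟨1, 0, 0, ?_, ?_, Or.inr ⟨rfl, rfl, one_ne_zero⟩⟩
      · rw [hw, QQ]; ring
      · simp [cub, q2, q3]
    · obtain ⟨h, k, hD⟩ : ∃ h k : F, a * k - b * h ≠ 0 := by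
        rcases hab with h | h
        · exact ⟨0, 1, by simpa using h⟩
        · exact ⟨1, 0, by simpa using h⟩
      obtain ⟨B, hB⟩ : ∃ B, B = 2 * α 0 * a * h + α 1 * (a * k + b * h) + 2 * α 2 * b * k := ⟨_, rfl⟩
      obtain ⟨C, hC⟩ : ∃ C, C = QQ α β w₀ a b 0 h k := ⟨_, rfl⟩
      have hQ : ∀ g, QQ α β w₀ a b g h k = 3 * w₀ * g ^ 2 + g * B + C := by
        intro g
        rw [hB, hC, QQ, QQ]
        ring
      obtain ⟨r, hr⟩ := IsAlgClosed.exists_eq_mul_self (B ^ 2 - 4 * (3 * w₀) * C)
      have hQ0 : QQ α β w₀ a b ((-B + r) / (2 * (3 * w₀))) h k = 0 := by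
        rw [hQ]
        have h2 : (2 : F) ≠ 0 := two_ne_zero
        field_simp
        linear_combination -hr
      exact ⟨_, h, k, hQ0, hnl _ h k hD hQ0, Or.inl hD⟩
  have hNc : κ ![w₀, a, b] + κ ![w₀, a, b] + κ ![w₀, a, b] = f := by
    obtain ⟨g, h, k, hQ, hc, hD⟩ := key1
    refine hκ.sec ![![w₀, a, b], ![w₀, a, b], ![w₀, a, b]] ⟨![w₀, a, b], ![g, h, k], ![1, 1, 1],
      ![0, 0, 0], -cub α β g ![h, k], ?_, neg_ne_zero.2 hc, ?_, ?_, ?_⟩
    · rw [LinearIndependent.pair_iff]
      intro s t hst
      have e0 := congrFun hst 0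
      have e1 := congrFun hst 1
      have e2 := congrFun hst 2
      simp at e0 e1 e2
      rcases hD with hD | ⟨rfl, rfl, hg⟩
      · have ht : t = 0 := by
          have : t * (a * k - b * h) = 0 := by linear_combination a * e2 - b * e1
          exact (mul_eq_zero.1 this).resolve_right hD
        subst ht
        refine ⟨?_, rfl⟩
        rcases hab with h' | h'
        · simpa [h'] using e1
        · simpa [h'] using e2
      · have hs : s = 0 := by
          rcases hab with h' | h'
          · simpa [h'] using e1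
          · simpa [h'] using e2
        subst hs
        refine ⟨rfl, ?_⟩
        simpa [hg] using e0
    · intro i
      fin_cases i <;> simp
    · intro i j
      fin_cases i <;> simp
    · intro l m
      have := hexp g h k l m
      simp only [Matrix.cons_val_zero, Matrix.cons_val_one, Matrix.cons_val_two, Matrix.head_cons,
        Matrix.tail_cons]
      rw [this, hQ]
      ring
  -- sections through the singular point and another point
  have key2 : ∀ g h k : F, cub α β g ![h, k] = 0 → QQ α β w₀ a b g h k ≠ 0 →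
      LinearIndependent F ![![w₀, a, b], ![g, h, k]] →
      κ ![w₀, a, b] + κ ![w₀, a, b] + κ ![g, h, k] = f := by
    intro g h k hc hQ hli
    refine hκ.sec ![![w₀, a, b], ![w₀, a, b], ![g, h, k]] ⟨![w₀, a, b], ![g, h, k], ![1, 1, 0],
      ![0, 0, 1], QQ α β w₀ a b g h k, hli, hQ, ?_, ?_, ?_⟩
    · intro i
      fin_cases i <;> simp
    · intro i j
      fin_cases i <;> simp
    · intro l m
      have := hexp g h k l m
      simp only [Matrix.cons_val_zero, Matrix.cons_val_one, Matrix.cons_val_two, Matrix.head_cons,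
        Matrix.tail_cons]
      rw [this, hc]
      ring
  have fin1 : κ ![w₀, a, b] + κ ![w₀, a, b] + κ ![w, c, d] = f →
      (3 : ℤ) • κ ![w, c, d] = f := by
    intro h
    have e1 : κ ![w, c, d] = f - κ ![w₀, a, b] - κ ![w₀, a, b] := by rw [← h]; abel
    have e2 : (3 : ℤ) • κ ![w, c, d] = (3 : ℤ) • f - (κ ![w₀, a, b] + κ ![w₀, a, b] + κ ![w₀, a, b]) -
      (κ ![w₀, a, b] + κ ![w₀, a, b] + κ ![w₀, a, b]) := by rw [e1]; abel
    rw [e2, hNc]
    abel
  by_cases hD : a * d - b * c = 0
  · -- proportional x parts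
    obtain ⟨e, he0, hec, hed⟩ : ∃ e : F, e ≠ 0 ∧ c = e * a ∧ d = e * b := by
      rcases hab with h | h
      · refine ⟨c / a, ?_, ?_, ?_⟩
        · intro h0
          rw [div_eq_zero_iff] at h0
          have hc0 : c = 0 := h0.resolve_right h
          rw [hc0, mul_zero, sub_zero] at hD
          have hd0 := (mul_eq_zero.1 hD).resolve_left h
          rcases hcd with h' | h'
          · exact h' hc0
          · exact h' hd0
        · field_simp
        · field_simp
          linear_combination hD
      · refine ⟨d / b, ?_, ?_, ?_⟩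
        · intro h0
          rw [div_eq_zero_iff] at h0
          have hd0 : d = 0 := h0.resolve_right h
          rw [hd0, mul_zero, zero_sub, neg_eq_zero] at hD
          have hc0 := (mul_eq_zero.1 hD).resolve_left h
          rcases hcd with h' | h'
          · exact h' hc0
          · exact h' hd0
        · field_simp
          linear_combination -hD
        · field_simp
    have hcub : (w - e * w₀) ^ 2 * (3 * (e * w₀) + (w - e * w₀)) = 0 := by
      have h1 := hexp 1 0 0 e (w - e * w₀)
      have h2 : e * w₀ + (w - e * w₀) * 1 = w := by ring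
      rw [h2, mul_zero, add_zero, add_zero, ← hec, ← hed, hv] at h1
      have h4 : QQ α β w₀ a b 1 0 0 = 3 * w₀ := by rw [QQ]; ring
      have h5 : cub α β (1 : F) ![0, 0] = 1 := by simp [cub, q2, q3]
      rw [h4, h5] at h1
      linear_combination -h1
    by_cases hw : w = e * w₀
    · -- proportional
      have e1 : (![w, c, d] : Fin 3 → F) = e • ![w₀, a, b] := by
        rw [hw, hec, hed]
        funext i
        fin_cases i <;> simp
      rw [e1, hκ.smul _ _ he0, ← hNc]
      abel
    · have hne : w - e * w₀ ≠ 0 := sub_ne_zero.2 hw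
      have hwe : w = -2 * (e * w₀) := by
        have := (mul_eq_zero.1 hcub).resolve_left (pow_ne_zero 2 hne)
        linear_combination this
      have hw0 : w₀ ≠ 0 := by
        intro h0
        rw [h0, mul_zero, mul_zero] at hwe
        rw [hwe, h0, mul_zero, sub_zero] at hne
        exact hne rfl
      have hQ0 : QQ α β w₀ a b w₀ a b = 0 := by
        have h1 := hexp w₀ a b 1 1
        have h2 := cub_exp α β w₀ a b 0 0 0 2 0
        have h6 : (1 * w₀ + 1 * w₀) = 2 * w₀ + 0 * 0 := by ring
        have h7 : (1 * a + 1 * a) = 2 * a + 0 * 0 := by ring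
        have h8 : (1 * b + 1 * b) = 2 * b + 0 * 0 := by ring
        rw [h6, h7, h8, h2, hN] at h1
        linear_combination -h1
      have hQe : QQ α β w₀ a b w c d = 3 * w₀ * (w - e * w₀) ^ 2 := by
        have h9 : cw α w₀ ![a, b] = 3 * w₀ ^ 2 + (α 0 * a ^ 2 + α 1 * (a * b) + α 2 * b ^ 2) := by
          simp [cw, q2]
        rw [hNw] at h9
        have h10 : QQ α β w₀ a b w c d = e ^ 2 * QQ α β w₀ a b w₀ a b +
            2 * e * (w - e * w₀) * (3 * w₀ ^ 2 + (α 0 * a ^ 2 + α 1 * (a * b) + α 2 * b ^ 2)) +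
            3 * w₀ * (w - e * w₀) ^ 2 := by
          rw [hec, hed, QQ, QQ]
          ring
        rw [h10, hQ0, ← h9]
        ring
      apply fin1
      apply key2 w c d hv
      · rw [hQe]
        exact mul_ne_zero (mul_ne_zero h3 hw0) (pow_ne_zero 2 hne)
      · rw [LinearIndependent.pair_iff]
        intro s t hst
        have e0 := congrFun hst 0
        have e1 := congrFun hst 1
        have e2 := congrFun hst 2
        simp at e0 e1 e2
        rw [hec] at e1
        rw [hed] at e2
        have hs : s + t * e = 0 := by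
          rcases hab with h' | h'
          · have : (s + t * e) * a = 0 := by linear_combination e1
            exact (mul_eq_zero.1 this).resolve_right h'
          · have : (s + t * e) * b = 0 := by linear_combination e2
            exact (mul_eq_zero.1 this).resolve_right h'
        have ht : t = 0 := by
          have : t * (w - e * w₀) = 0 := by linear_combination e0 - w₀ * hs
          exact (mul_eq_zero.1 this).resolve_right hne
        subst ht
        exact ⟨by simpa using hs, rfl⟩
  · apply fin1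
    apply key2 w c d hv
    · intro hQ
      exact hnl w c d hD hQ hv
    · rw [LinearIndependent.pair_iff]
      intro s t hst
      have e1 := congrFun hst 1
      have e2 := congrFun hst 2
      simp at e1 e2
      have ht : t = 0 := by
        have : t * (a * d - b * c) = 0 := by linear_combination a * e2 - b * e1
        exact (mul_eq_zero.1 this).resolve_right hD
      subst ht
      refine ⟨?_, rfl⟩
      rcases hab with h' | h'
      · simpa [h'] using e1
      · simpa [h'] using e2

end Pool.Agent.H97.ZK
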